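import Mathlib
import Pool.Agent.H525.EX.Stm5
import Pool.Agent.H236.QF.RR
import Pool.Agent.H277.QF.EX

/-!
# Project EX (helper525), task TW0: weighted Riemann-Roch of the second kind
-/

set_option autoImplicit false

namespace Pool.Agent.H412.EX

open Polynomial
open Pool.Agent.H525.QF
open Pool.Agent.H525.EX
open scoped Classical

section main

variable {K : Type} [Field K] [Fintype K]

/-- the pairs of the second kind in the lattice -/
noncomputable def sS (m : ℕ) (b τ : K[X]) : Finset (K[X] × K[X]) :=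
  ((mon K m) ×ˢ (lt K m)).filter (fun v => b ∣ v.1 + τ * v.2)

theorem T0_eq (ω : K → ℝ) (b τ : K[X]) (m : ℕ) :
    T0 ω b τ (m : ℤ) = ∑ v ∈ sS m b τ, ω (v.2.coeff (m - 1)) := by
  unfold T0 sS
  rw [if_neg (not_lt.2 (Int.natCast_nonneg m))]
  simp only [Int.toNat_natCast]

theorem T0_neg (ω : K → ℝ) (b τ : K[X]) (m : ℤ) (hm : m < 0) : T0 ω b τ m = 0 := by
  unfold T0
  rw [if_pos hm]

theorem mem_sS {m : ℕ} {b τ : K[X]} {v : K[X] × K[X]} :
    v ∈ sS m b τ ↔ (v.1.Monic ∧ v.1.natDegree = m) ∧ v.2.degree < m ∧ b ∣ v.1 + τ * v.2 := by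
  unfold sS
  rw [Finset.mem_filter, Finset.mem_product, mem_mon, mem_lt, and_assoc]

theorem avg_zero (ω : K → ℝ) (hω : ∑ c : K, ω c = 0) (S : Finset (K[X] × K[X])) (j : ℕ)
    (f : K → K[X] × K[X] → K[X] × K[X])
    (hf : ∀ d, ∀ v ∈ S, f d v ∈ S) (hinv : ∀ d, ∀ v ∈ S, f (-d) (f d v) = v)
    (hco : ∀ d, ∀ v ∈ S, (f d v).2.coeff j = v.2.coeff j + d) :
    ∑ v ∈ S, ω (v.2.coeff j) = 0 := by
  have h1 : ∀ d : K, ∑ v ∈ S, ω (v.2.coeff j) = ∑ v ∈ S, ω (v.2.coeff j + d) := by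
    intro d
    symm
    refine Finset.sum_nbij' (f d) (f (-d)) (hf d) (hf (-d)) (hinv d) ?_ ?_
    · intro v hv
      have := hinv (-d) v hv
      rwa [neg_neg] at this
    · intro v hv
      rw [hco d v hv]
  have h2 : ∑ _d : K, ∑ v ∈ S, ω (v.2.coeff j) = ∑ v ∈ S, ∑ d : K, ω (v.2.coeff j + d) := by
    rw [Finset.sum_comm (s := S)]
    exact Finset.sum_congr rfl (fun d _ => h1 d)
  have h3 : ∑ v ∈ S, ∑ d : K, ω (v.2.coeff j + d) = 0 := by
    apply Finset.sum_eq_zero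
    intro v _
    have := Equiv.sum_comp (Equiv.addLeft (v.2.coeff j)) ω
    simp only [Equiv.coe_addLeft] at this
    rw [this, hω]
  rw [h3, Finset.sum_const, Finset.card_univ, nsmul_eq_mul] at h2
  rcases mul_eq_zero.1 h2 with h | h
  · exfalso
    have : (Fintype.card K : ℝ) ≠ 0 := by exact_mod_cast Fintype.card_ne_zero
    exact this h
  · exact h

theorem degC_lt {m : ℕ} {x : K[X]} (hx : x.degree < m) (c : K) : (C c * x).degree < m := by
  by_cases hc : c = 0
  · rw [hc, C_0, zero_mul, degree_zero]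
    exact WithBot.bot_lt_coe _
  · rw [degree_mul, degree_C hc, zero_add]
    exact hx

theorem shift_zero (ω : K → ℝ) (hω : ∑ c : K, ω c = 0) {b τ : K[X]} {m : ℕ} {x0 y0 : K[X]}
    (hx : x0.degree < m) (hy : y0.degree < m) (h : b ∣ x0 + τ * y0)
    (h1 : y0.coeff (m - 1) = 1) :
    ∑ v ∈ sS m b τ, ω (v.2.coeff (m - 1)) = 0 := by
  refine avg_zero ω hω (sS m b τ) (m - 1) (fun d v => (v.1 + C d * x0, v.2 + C d * y0))
    ?_ ?_ ?_
  · intro d v hv
    rw [mem_sS] at hv ⊢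
    obtain ⟨⟨hv1, hv2⟩, hv3, hv4⟩ := hv
    have hlt : (C d * x0).degree < v.1.degree := by
      rw [degree_eq_natDegree hv1.ne_zero, hv2]
      exact degC_lt hx d
    refine ⟨⟨hv1.add_of_left hlt, ?_⟩, ?_, ?_⟩
    · simp only
      rw [natDegree_add_eq_left_of_degree_lt hlt, hv2]
    · exact lt_of_le_of_lt (degree_add_le _ _) (max_lt hv3 (degC_lt hy d))
    · have : v.1 + C d * x0 + τ * (v.2 + C d * y0) =
          (v.1 + τ * v.2) + C d * (x0 + τ * y0) := by ring
      simp only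
      rw [this]
      exact dvd_add hv4 (h.mul_left _)
  · intro d v _
    refine Prod.ext ?_ ?_
    · simp only [C_neg]
      ring
    · simp only [C_neg]
      ring
  · intro d v _
    simp only [coeff_add, coeff_C_mul, h1, mul_one]

theorem high (ω : K → ℝ) (hω : ∑ c : K, ω c = 0) {b τ : K[X]} {l m : ℕ} (hb : b.Monic)
    (hl : b.natDegree = l) (hlm : l ≤ m) (hm : 1 ≤ m) :
    ∑ v ∈ sS m b τ, ω (v.2.coeff (m - 1)) = 0 := by
  refine shift_zero ω hω (x0 := -((τ * X ^ (m - 1)) %ₘ b)) (y0 := X ^ (m - 1)) ?_ ?_ ?_ ?_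
  · rw [degree_neg]
    refine lt_of_lt_of_le (degree_modByMonic_lt _ hb) ?_
    rw [degree_eq_natDegree hb.ne_zero, hl]
    exact_mod_cast hlm
  · rw [degree_X_pow]
    exact_mod_cast (by omega : m - 1 < m)
  · have h := modByMonic_add_div (τ * X ^ (m - 1)) b
    have h2 : -((τ * X ^ (m - 1)) %ₘ b) + τ * X ^ (m - 1) = b * ((τ * X ^ (m - 1)) /ₘ b) := by
      linear_combination -h
    rw [h2]
    exact dvd_mul_right _ _
  · rw [coeff_X_pow, if_pos rfl]

theorem low (ω : K → ℝ) {b τ : K[X]} {l : ℕ} (hb : b.Monic)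
    (hl : b.natDegree = l) (hl1 : 1 ≤ l) :
    ∑ v ∈ sS 0 b τ, ω (v.2.coeff (0 - 1)) = 0 := by
  have h0 : sS 0 b τ = ∅ := by
    rw [Finset.eq_empty_iff_forall_notMem]
    intro v hv
    rw [mem_sS] at hv
    obtain ⟨⟨hv1, hv2⟩, hv3, hv4⟩ := hv
    have h2 : v.2 = 0 := by
      rw [← degree_eq_bot]
      have : v.2.degree < ((0 : ℕ) : WithBot ℕ) := hv3
      rw [Nat.cast_zero] at this
      exact (Nat.WithBot.lt_zero_iff).1 this
    have h1 : v.1 = 1 := (Monic.natDegree_eq_zero hv1).1 hv2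
    rw [h2, h1, mul_zero, add_zero] at hv4
    have := natDegree_le_of_dvd hv4 one_ne_zero
    rw [natDegree_one, hl] at this
    omega
  rw [h0, Finset.sum_empty]

theorem ortho {b τ : K[X]} {l m m' : ℕ} (hl : b.natDegree = l) (hm : 1 ≤ m)
    (hm' : 1 ≤ m') (hs : m + m' = l) {x y x' y' : K[X]} (hx : x.natDegree ≤ m)
    (hy : y.degree < m) (hx' : x'.natDegree ≤ m') (hy' : y'.degree < m')
    (h : b ∣ x + τ * y) (h' : b ∣ x' + τ * y') :
    x.coeff m * y'.coeff (m' - 1) = x'.coeff m' * y.coeff (m - 1) := by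
  have hyn : y.natDegree ≤ m - 1 := by
    by_cases h0 : y = 0
    · rw [h0, natDegree_zero]; exact Nat.zero_le _
    · rw [degree_eq_natDegree h0] at hy
      have : y.natDegree < m := by exact_mod_cast hy
      omega
  have hyn' : y'.natDegree ≤ m' - 1 := by
    by_cases h0 : y' = 0
    · rw [h0, natDegree_zero]; exact Nat.zero_le _
    · rw [degree_eq_natDegree h0] at hy'
      have : y'.natDegree < m' := by exact_mod_cast hy'
      omega
  have hd : b ∣ x * y' - x' * y := by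
    have : x * y' - x' * y = (x + τ * y) * y' - (x' + τ * y') * y := by ring
    rw [this]
    exact dvd_sub (h.mul_right _) (h'.mul_right _)
  have hz : x * y' - x' * y = 0 := by
    apply eq_zero_of_dvd_of_natDegree_lt hd
    rw [hl]
    refine lt_of_le_of_lt (natDegree_sub_le _ _) (max_lt ?_ ?_)
    · refine lt_of_le_of_lt natDegree_mul_le ?_
      omega
    · refine lt_of_le_of_lt natDegree_mul_le ?_
      omega
  have hc1 : (x * y').coeff (m + (m' - 1)) = x.coeff m * y'.coeff (m' - 1) :=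
    coeff_mul_add_eq_of_natDegree_le hx hyn'
  have hc2 : (x' * y).coeff (m' + (m - 1)) = x'.coeff m' * y.coeff (m - 1) :=
    coeff_mul_add_eq_of_natDegree_le hx' hyn
  rw [← hc1, ← hc2, sub_eq_zero.1 hz]
  congr 1
  omega

/-- no element of the lattice in the small box has a top coefficient -/
def Zc (m : ℕ) (b τ : K[X]) : Prop := ∀ x y : K[X], x.degree < m → y.degree < m →
  b ∣ x + τ * y → y.coeff (m - 1) = 0

theorem zero_of_not (ω : K → ℝ) (hω : ∑ c : K, ω c = 0) {b τ : K[X]} {m : ℕ}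
    (h : ¬ Zc m b τ) : ∑ v ∈ sS m b τ, ω (v.2.coeff (m - 1)) = 0 := by
  unfold Zc at h
  push Not at h
  obtain ⟨x, y, hx, hy, hd, hc⟩ := h
  refine shift_zero ω hω (x0 := C (y.coeff (m - 1))⁻¹ * x) (y0 := C (y.coeff (m - 1))⁻¹ * y)
    (degC_lt hx _) (degC_lt hy _) ?_ ?_
  · have : C (y.coeff (m - 1))⁻¹ * x + τ * (C (y.coeff (m - 1))⁻¹ * y) =
        C (y.coeff (m - 1))⁻¹ * (x + τ * y) := by ring
    rw [this]
    exact hd.mul_left _
  · rw [coeff_C_mul, inv_mul_cancel₀ hc]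

theorem zero_of_not' (ω : K → ℝ) {b τ : K[X]} {l m m' : ℕ} (hl : b.natDegree = l)
    (hm : 1 ≤ m) (hm' : 1 ≤ m') (hs : m + m' = l) (h : ¬ Zc m b τ) :
    ∑ v ∈ sS m' b τ, ω (v.2.coeff (m' - 1)) = 0 := by
  unfold Zc at h
  push Not at h
  obtain ⟨x, y, hx, hy, hd, hc⟩ := h
  have h0 : sS m' b τ = ∅ := by
    rw [Finset.eq_empty_iff_forall_notMem]
    intro v hv
    rw [mem_sS] at hv
    obtain ⟨⟨hv1, hv2⟩, hv3, hv4⟩ := hv
    have h1 := ortho hl hm hm' hs (natDegree_le_of_degree_le hx.le) hy hv2.le hv3 hd hv4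
    rw [coeff_eq_zero_of_degree_lt hx, zero_mul] at h1
    have h2 : v.1.coeff m' = 1 := by
      rw [← hv2]
      exact hv1.coeff_natDegree
    rw [h2, one_mul] at h1
    exact hc h1.symm
  rw [h0, Finset.sum_empty]

theorem L_eq_of_Z {b τ : K[X]} {m : ℕ} (h : Zc m b τ) : L m (m - 1) b τ = L m m b τ := by
  unfold L
  congr 1
  ext v
  rw [Finset.mem_filter, Finset.mem_filter, Finset.mem_product, Finset.mem_product, mem_lt,
    mem_lt, mem_lt]
  constructor
  · rintro ⟨⟨h1, h2⟩, h3⟩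
    refine ⟨⟨h1, lt_of_lt_of_le h2 ?_⟩, h3⟩
    exact_mod_cast Nat.sub_le m 1
  · rintro ⟨⟨h1, h2⟩, h3⟩
    refine ⟨⟨h1, ?_⟩, h3⟩
    rw [degree_lt_iff_coeff_zero] at h2 ⊢
    intro j hj
    by_cases hj2 : m ≤ j
    · exact h2 j hj2
    · have : j = m - 1 := by omega
      rw [this]
      exact h v.1 v.2 h1 ((degree_lt_iff_coeff_zero _ _).2 h2) h3

theorem card_sS {b τ : K[X]} {l m m' : ℕ} (hb : b.Monic) (hl : b.natDegree = l)
    (hm' : 1 ≤ m') (hs : m + m' = l) (h' : Zc m' b τ) :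
    (sS m b τ).card = L m m b τ := by
  have hq : 1 < Fintype.card K := Fintype.one_lt_card
  have h1 := Pool.Agent.H236.QF.t_rr K b τ l m m hb hl (by omega) (by omega)
  have h2 := Pool.Agent.H236.QF.t_rr K b τ l (m + 1) m hb hl (by omega) (by omega)
  have e1 : l - m = m' := by omega
  have e2 : l - (m + 1) = m' - 1 := by omega
  rw [e1] at h1 h2
  rw [e2, L_eq_of_Z h'] at h2
  have h3 : L (m + 1) m b τ = L m m b τ + (Fintype.card K - 1) * (sS m b τ).card := by
    unfold L sS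
    refine Pool.Agent.H277.QF.split' (fun v => b ∣ v.1 + τ * v.2) ?_ m m
    intro c hc v
    have : C c * v.1 + τ * (C c * v.2) = C c * (v.1 + τ * v.2) := by ring
    simp only
    rw [this]
    exact (isUnit_C.2 hc.isUnit).dvd_mul_left
  have h4 : Fintype.card K ^ (m + 1 + m) * L m' m' b τ =
      (Fintype.card K * L m m b τ) * Fintype.card K ^ l := by
    rw [mul_assoc, h1]
    ring
  rw [h4] at h2
  have h5 : L (m + 1) m b τ = Fintype.card K * L m m b τ :=
    Nat.eq_of_mul_eq_mul_right (pow_pos (by omega) l) h2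
  rw [h3] at h5
  obtain ⟨q, hq2⟩ : ∃ q, Fintype.card K = q + 1 := ⟨Fintype.card K - 1, by omega⟩
  rw [hq2] at h5 hq
  have h6 : q * (sS m b τ).card = q * L m m b τ := by
    have : q + 1 - 1 = q := by omega
    rw [this] at h5
    nlinarith
  exact Nat.eq_of_mul_eq_mul_left (by omega) h6

theorem L_pos (m : ℕ) (b τ : K[X]) : 0 < L m m b τ := by
  unfold L
  apply Finset.card_pos.2
  refine ⟨(0, 0), ?_⟩
  rw [Finset.mem_filter, Finset.mem_product, mem_lt]
  simp only [degree_zero, mul_zero, add_zero, dvd_zero, and_true]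
  exact ⟨WithBot.bot_lt_coe _, WithBot.bot_lt_coe _⟩

theorem sum_of_Z (ω : K → ℝ) {b τ : K[X]} {m : ℕ} (h : Zc m b τ) {v0 : K[X] × K[X]}
    (hv0 : v0 ∈ sS m b τ) :
    ∑ v ∈ sS m b τ, ω (v.2.coeff (m - 1)) =
      ((sS m b τ).card : ℝ) * ω (v0.2.coeff (m - 1)) := by
  rw [← nsmul_eq_mul, ← Finset.sum_const]
  refine Finset.sum_congr rfl (fun v hv => ?_)
  congr 1
  rw [mem_sS] at hv hv0
  obtain ⟨⟨hv1, hv2⟩, hv3, hv4⟩ := hv
  obtain ⟨⟨hw1, hw2⟩, hw3, hw4⟩ := hv0
  have hx : (v.1 - v0.1).degree < (m : WithBot ℕ) := by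
    have h1 : v.1.degree = (m : WithBot ℕ) := by
      rw [degree_eq_natDegree hv1.ne_zero, hv2]
    have h2 : v0.1.degree = (m : WithBot ℕ) := by
      rw [degree_eq_natDegree hw1.ne_zero, hw2]
    have := degree_sub_lt_left (h1.trans h2.symm) hv1.ne_zero
      (by rw [hv1.leadingCoeff, hw1.leadingCoeff])
    rwa [h1] at this
  have hy : (v.2 - v0.2).degree < (m : WithBot ℕ) :=
    lt_of_le_of_lt (degree_sub_le _ _) (max_lt hv3 hw3)
  have hd : b ∣ (v.1 - v0.1) + τ * (v.2 - v0.2) := by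
    have : (v.1 - v0.1) + τ * (v.2 - v0.2) = (v.1 + τ * v.2) - (v0.1 + τ * v0.2) := by ring
    rw [this]
    exact dvd_sub hv4 hw4
  have := h _ _ hx hy hd
  rw [coeff_sub, sub_eq_zero] at this
  exact this

theorem mid (ω : K → ℝ) (hω : ∑ c : K, ω c = 0) {b τ : K[X]} {l m m' : ℕ} (hb : b.Monic)
    (hl : b.natDegree = l) (hm : 1 ≤ m) (hm' : 1 ≤ m') (hs : m + m' = l) :
    ∑ v ∈ sS m b τ, ω (v.2.coeff (m - 1)) * (Fintype.card K : ℝ) ^ l =
      (Fintype.card K : ℝ) ^ (2 * m) * ∑ v ∈ sS m' b τ, ω (v.2.coeff (m' - 1)) := by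
  have hs' : m' + m = l := by omega
  rw [← Finset.sum_mul]
  by_cases h : Zc m b τ
  · by_cases h' : Zc m' b τ
    · have c1 := card_sS (m := m) hb hl hm' hs h'
      have c2 := card_sS (m := m') hb hl hm hs' h
      obtain ⟨v, hv⟩ := Finset.card_pos.1 (c1 ▸ L_pos m b τ)
      obtain ⟨w, hw⟩ := Finset.card_pos.1 (c2 ▸ L_pos m' b τ)
      rw [sum_of_Z ω h hv, sum_of_Z ω h' hw, c1, c2]
      have he : v.2.coeff (m - 1) = w.2.coeff (m' - 1) := by
        rw [mem_sS] at hv hw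
        obtain ⟨⟨hv1, hv2⟩, hv3, hv4⟩ := hv
        obtain ⟨⟨hw1, hw2⟩, hw3, hw4⟩ := hw
        have h1 := ortho hl hm hm' hs hv2.le hv3 hw2.le hw3 hv4 hw4
        have h2 : v.1.coeff m = 1 := by
          rw [← hv2]
          exact hv1.coeff_natDegree
        have h3 : w.1.coeff m' = 1 := by
          rw [← hw2]
          exact hw1.coeff_natDegree
        rw [h2, h3, one_mul, one_mul] at h1
        exact h1.symm
      rw [he]
      have h1 := Pool.Agent.H236.QF.t_rr K b τ l m m hb hl (by omega) (by omega)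
      have e1 : l - m = m' := by omega
      rw [e1, ← two_mul] at h1
      have h2 : (L m m b τ : ℝ) * (Fintype.card K : ℝ) ^ l =
          (Fintype.card K : ℝ) ^ (2 * m) * (L m' m' b τ : ℝ) := by exact_mod_cast h1
      linear_combination ω (w.2.coeff (m' - 1)) * h2
    · rw [zero_of_not ω hω h', zero_of_not' ω hl hm' hm hs' h', zero_mul, mul_zero]
  · rw [zero_of_not ω hω h, zero_of_not' ω hl hm hm' hs h, zero_mul, mul_zero]

end main

theorem t_tw0 : Pool.Agent.H525.EX.S_tw0 := by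
  intro K _ _ ω hω b τ l hb hl m
  have hq0 : (Fintype.card K : ℝ) ≠ 0 := by exact_mod_cast Fintype.card_ne_zero
  have hhigh : ∀ n : ℤ, (l : ℤ) ≤ n → 1 ≤ n → T0 ω b τ n = 0 := by
    intro n h1 h2
    obtain ⟨k, rfl⟩ := Int.eq_ofNat_of_zero_le (by omega : 0 ≤ n)
    rw [T0_eq]
    exact high ω hω hb hl (by omega) (by omega)
  have hlow : 1 ≤ l → T0 ω b τ 0 = 0 := by
    intro h1
    have := T0_eq ω b τ 0
    rw [Nat.cast_zero] at this
    rw [this]
    exact low ω hb hl h1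
  rcases lt_trichotomy m 0 with h | h | h
  · rw [T0_neg ω b τ m h, hhigh (l - m) (by omega) (by omega), mul_zero]
  · subst h
    by_cases hl0 : l = 0
    · subst hl0
      simp
    · rw [hlow (by omega), hhigh (l - 0) (by omega) (by omega), mul_zero]
  · by_cases hlm : (l : ℤ) ≤ m
    · rw [hhigh m hlm (by omega)]
      rcases hlm.lt_or_eq with h1 | h1
      · rw [T0_neg ω b τ (l - m) (by omega), mul_zero]
      · rw [← h1, sub_self, hlow (by omega), mul_zero]
    · push Not at hlm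
      obtain ⟨k, rfl⟩ := Int.eq_ofNat_of_zero_le h.le
      obtain ⟨k', hk'⟩ := Int.eq_ofNat_of_zero_le (by omega : 0 ≤ (l : ℤ) - k)
      have h1 := mid ω hω (b := b) (τ := τ) (l := l) (m := k) (m' := k') hb hl
        (by omega) (by omega) (by omega)
      rw [← Finset.sum_mul] at h1
      rw [hk']
      rw [T0_eq, T0_eq]
      have h2 : (Fintype.card K : ℝ) ^ (2 * (k : ℤ) - (l : ℤ)) =
          (Fintype.card K : ℝ) ^ (2 * k) / (Fintype.card K : ℝ) ^ l := by
        rw [zpow_sub₀ hq0]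
        norm_cast
      rw [h2, div_mul_eq_mul_div, eq_div_iff (pow_ne_zero _ hq0)]
      exact h1

end Pool.Agent.H412.EX
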